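import Pool.Agent.Q139.Rep.Hole

/-!
MP_25e24e_co, Q2; the plane is `ℂ`.

Definitions (in `Pool/Agent/Q139/Rep/Defs.lean`):
* `Q139.Rep.IsTile X`: `X` is bounded and is the closure of its interior;
* `Q139.Rep.piece n X g`: the set `g (n^{-1/2} X)` for an isometry `g` of the plane;
* `Q139.Rep.IsReptile n X`: `n ≥ 2`, `X` is a tile and `X` is the union of `n` pieces with pairwise
  disjoint interiors;
* `Q139.Rep.HasHole X`: the complement of `X` has a bounded connected component.
-/

namespace Pool.Agent.Results.MP_25e24e_co.HolesInReptiles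

open Set Q139.Rep

/-- Q2: the least `n` for which there is an `n`-reptile with a hole is `2` (the Lévy dragon). -/
theorem result : IsLeast {n : ℕ | 2 ≤ n ∧ ∃ X : Set ℂ, IsReptile n X ∧ HasHole X} 2 :=
  ⟨⟨le_rfl, Levy.X, Levy.reptile, Levy.hole⟩, fun _ hn => hn.1⟩

end Pool.Agent.Results.MP_25e24e_co.HolesInReptiles
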